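import Mathlib

/-! The Fourier transform is not continuous from translation bounded Fourier transformable measures
(with the norm `‖·‖_K`) to measures with the vague topology. -/

open MeasureTheory Complex Set Filter Topology
open scoped Real FourierTransform ComplexConjugate Pointwise BoundedContinuousFunction

noncomputable section

namespace Pool.Agent.Results.MP_148afe_an.NotVaguelyContinuous

/-- A complex Radon measure `μ = h σ` on `E`: a positive measure `σ`, finite on compact sets, and a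
locally `σ`-integrable complex density `h`. Its total variation measure is `|h| σ`. -/
structure ComplexRadon (E : Type*) [TopologicalSpace E] [MeasurableSpace E] where
  /-- the positive measure `σ` -/
  base : Measure E
  /-- the density `h` -/
  dens : E → ℂ
  finite_on_compacts : ∀ K : Set E, IsCompact K → base K < ⊤
  locallyIntegrable : LocallyIntegrable dens base

section
variable {E : Type*} [TopologicalSpace E] [MeasurableSpace E]

/-- `μ(f) = ∫ f dμ = ∫ f h dσ`. -/
def ComplexRadon.eval (μ : ComplexRadon E) (f : E → ℂ) : ℂ := ∫ x, f x * μ.dens x ∂μ.base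

/-- `|μ|(A) = ∫_A |h| dσ`. -/
def ComplexRadon.variation (μ : ComplexRadon E) (A : Set E) : ENNReal :=
  ∫⁻ x in A, ‖μ.dens x‖ₑ ∂μ.base

/-- `f ∈ L²(|μ|)`, for continuous `f`. -/
def ComplexRadon.MemL2 (μ : ComplexRadon E) (f : E → ℂ) : Prop :=
  Integrable (fun x => ((‖f x‖ ^ 2 : ℝ) : ℂ) * μ.dens x) μ.base

/-- `f ∈ C_c(E)`. -/
def IsCc (f : E → ℂ) : Prop := Continuous f ∧ HasCompactSupport f

end

/-- `‖μ‖_K = sup_x |μ|(x + K)`. -/
def normK {d : ℕ} (K : Set (EuclideanSpace ℝ (Fin d)))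
    (μ : ComplexRadon (EuclideanSpace ℝ (Fin d))) : ENNReal :=
  ⨆ x : EuclideanSpace ℝ (Fin d), μ.variation (x +ᵥ K)

/-- `μ` is Fourier transformable with Fourier transform `μ'`: for every `f ∈ C_c(ℝᵈ)` one has
`f̌ ∈ L²(|μ'|)` and `μ(f * f̃) = μ'(|f̌|²)`, where `f̃(x) = conj (f (-x))`. -/
def IsFourierTransform {d : ℕ} (μ μ' : ComplexRadon (EuclideanSpace ℝ (Fin d))) : Prop :=
  ∀ f : EuclideanSpace ℝ (Fin d) → ℂ, IsCc f →
    μ'.MemL2 (𝓕⁻ f) ∧
      μ.eval (MeasureTheory.convolution f (fun x => conj (f (-x))) (ContinuousLinearMap.mul ℂ ℂ)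
        volume) = μ'.eval (fun y => ((‖𝓕⁻ f y‖ ^ 2 : ℝ) : ℂ))

/-! ### Complex Gaussians -/

variable {d : ℕ}

/-- The chirped Gaussian `exp (-π (1 + i t) |y|²)`. -/
def gau (d : ℕ) (t : ℝ) (y : EuclideanSpace ℝ (Fin d)) : ℂ :=
  Complex.exp (-(π * (1 + t * Complex.I)) * (‖y‖ : ℂ) ^ 2)

lemma continuous_gau (t : ℝ) : Continuous (gau d t) := by
  unfold gau
  fun_prop

lemma norm_gau (t : ℝ) (y : EuclideanSpace ℝ (Fin d)) :
    ‖gau d t y‖ = Real.exp (-π * ‖y‖ ^ 2) := by
  unfold gau
  rw [Complex.norm_exp]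
  congr 1
  have : -(π * (1 + t * Complex.I)) * (‖y‖ : ℂ) ^ 2 =
      ((-π * ‖y‖ ^ 2 : ℝ) : ℂ) + ((-π * t * ‖y‖ ^ 2 : ℝ) : ℂ) * Complex.I := by
    push_cast
    ring
  rw [this, Complex.add_re, Complex.ofReal_re, Complex.re_ofReal_mul, Complex.I_re, mul_zero,
    add_zero]

lemma gau_neg (t : ℝ) (y : EuclideanSpace ℝ (Fin d)) : gau d t (-y) = gau d t y := by
  unfold gau
  rw [norm_neg]

lemma b_re (t : ℝ) : 0 < ((π : ℂ) * (1 + t * Complex.I)).re := by
  simp [Real.pi_pos]

lemma integrable_gau (t : ℝ) : Integrable (gau d t) := by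
  have := GaussianFourier.integrable_cexp_neg_mul_sq_norm_add
    (V := EuclideanSpace ℝ (Fin d)) (b_re t) 0 0
  refine this.congr ?_
  filter_upwards with y
  unfold gau
  simp

lemma fourier_gau (t : ℝ) (w : EuclideanSpace ℝ (Fin d)) :
    𝓕 (gau d t) w = (1 / (1 + t * Complex.I)) ^ (((d : ℝ) / 2 : ℝ) : ℂ) *
      Complex.exp (-π * (‖w‖ : ℂ) ^ 2 / (1 + t * Complex.I)) := by
  have h := fourier_gaussian_innerProductSpace
    (V := EuclideanSpace ℝ (Fin d)) (b_re t) w
  have e : (gau d t) = fun v : EuclideanSpace ℝ (Fin d) =>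
      Complex.exp (-((π : ℂ) * (1 + t * Complex.I)) * (‖v‖ : ℂ) ^ 2) := by
    funext v
    unfold gau
    rfl
  rw [e, h]
  have hpi : (π : ℂ) ≠ 0 := by exact_mod_cast Real.pi_ne_zero
  have hb : (1 + (t : ℂ) * Complex.I) ≠ 0 := by
    intro h0
    have := congrArg Complex.re h0
    simp at this
  congr 1
  · rw [finrank_euclideanSpace, Fintype.card_fin]
    congr 1
    · field_simp
    · push_cast
      ring
  · congr 1
    field_simp

lemma norm_fourier_gau_le (hd : 1 ≤ d) (t : ℝ) (ht : 1 ≤ t) (w : EuclideanSpace ℝ (Fin d)) :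
    ‖𝓕 (gau d t) w‖ ≤ 1 / Real.sqrt t := by
  rw [fourier_gau, norm_mul, Complex.norm_cpow_real, norm_div, norm_one]
  have hnorm : t ≤ ‖(1 + (t : ℂ) * Complex.I)‖ := by
    have := Complex.abs_im_le_norm (1 + (t : ℂ) * Complex.I)
    simp at this
    rwa [abs_of_nonneg (by linarith)] at this
  have h1 : ‖Complex.exp (-π * (‖w‖ : ℂ) ^ 2 / (1 + t * Complex.I))‖ ≤ 1 := by
    rw [Complex.norm_exp]
    apply Real.exp_le_one_iff.2
    have e : -π * (‖w‖ : ℂ) ^ 2 / (1 + t * Complex.I) =
        ((-π * ‖w‖ ^ 2 : ℝ) : ℂ) * (1 + t * Complex.I)⁻¹ := by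
      push_cast
      rw [div_eq_mul_inv]
    rw [e, Complex.re_ofReal_mul, Complex.inv_re]
    have h2 : (1 + (t : ℂ) * Complex.I).re = 1 := by simp
    rw [h2]
    have h3 : 0 ≤ 1 / Complex.normSq (1 + (t : ℂ) * Complex.I) :=
      div_nonneg zero_le_one (Complex.normSq_nonneg _)
    have h4 : -π * ‖w‖ ^ 2 ≤ 0 := by
      have := Real.pi_pos
      have := sq_nonneg ‖w‖
      nlinarith
    exact mul_nonpos_of_nonpos_of_nonneg h4 h3
  have h5 : (1 / ‖(1 + (t : ℂ) * Complex.I)‖) ^ ((d : ℝ) / 2) ≤ 1 / Real.sqrt t := by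
    have ht0 : 0 < t := by linarith
    calc (1 / ‖(1 + (t : ℂ) * Complex.I)‖) ^ ((d : ℝ) / 2) ≤ (1 / t) ^ ((d : ℝ) / 2) := by
          apply Real.rpow_le_rpow (by positivity)
          · exact one_div_le_one_div_of_le ht0 hnorm
          · positivity
      _ ≤ (1 / t) ^ ((1 : ℝ) / 2) := by
          apply Real.rpow_le_rpow_of_exponent_ge (by positivity)
          · rw [div_le_one ht0]
            exact ht
          · have : (1 : ℝ) ≤ d := by exact_mod_cast hd
            linarith
      _ = 1 / Real.sqrt t := by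
          rw [← Real.sqrt_eq_rpow, Real.sqrt_div zero_le_one, Real.sqrt_one]
  calc (1 / ‖(1 + (t : ℂ) * Complex.I)‖) ^ ((d : ℝ) / 2) *
        ‖Complex.exp (-π * (‖w‖ : ℂ) ^ 2 / (1 + t * Complex.I))‖
      ≤ (1 / Real.sqrt t) * 1 := by
        apply mul_le_mul h5 h1 (norm_nonneg _) (by positivity)
    _ = _ := mul_one _

lemma continuous_fourier_gau (t : ℝ) : Continuous (𝓕 (gau d t)) := by
  have : 𝓕 (gau d t) = fun w : EuclideanSpace ℝ (Fin d) =>
      (1 / (1 + t * Complex.I)) ^ (((d : ℝ) / 2 : ℝ) : ℂ) *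
      Complex.exp (-π * (‖w‖ : ℂ) ^ 2 / (1 + t * Complex.I)) := by
    funext w
    exact fourier_gau t w
  rw [this]
  fun_prop

/-- `ε · ĝ_t dx`. -/
def muG (d : ℕ) (ε t : ℝ) : ComplexRadon (EuclideanSpace ℝ (Fin d)) where
  base := volume
  dens := fun x => (ε : ℂ) * 𝓕 (gau d t) x
  finite_on_compacts := fun _ hK => hK.measure_lt_top
  locallyIntegrable := (continuous_const.mul (continuous_fourier_gau t)).locallyIntegrable

/-- `ε · g_t dy`. -/
def muGHat (d : ℕ) (ε t : ℝ) : ComplexRadon (EuclideanSpace ℝ (Fin d)) where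
  base := volume
  dens := fun y => (ε : ℂ) * gau d t y
  finite_on_compacts := fun _ hK => hK.measure_lt_top
  locallyIntegrable := (continuous_const.mul (continuous_gau t)).locallyIntegrable

lemma fourier_conj_reflect (f : EuclideanSpace ℝ (Fin d) → ℂ) (y : EuclideanSpace ℝ (Fin d)) :
    𝓕 (fun x => conj (f (-x))) y = conj (𝓕 f y) := by
  rw [Real.fourier_eq', Real.fourier_eq', ← integral_conj,
    ← integral_neg_eq_self (fun x => conj (Complex.exp (((-2 * π * inner ℝ x y : ℝ) : ℂ) *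
      Complex.I) • f x))]
  congr 1
  funext x
  simp only [smul_eq_mul, map_mul, ← Complex.exp_conj, Complex.conj_ofReal, Complex.conj_I,
    inner_neg_left]
  congr 2
  push_cast
  ring

lemma fourierInv_norm (f : EuclideanSpace ℝ (Fin d) → ℂ) (y : EuclideanSpace ℝ (Fin d)) :
    𝓕⁻ f y = 𝓕 f (-y) := by
  rw [Real.fourierInv_eq_fourier_neg]

lemma isFT (ε t : ℝ) : IsFourierTransform (muG d ε t) (muGHat d ε t) := by
  intro f hf
  have hfi : Integrable f := hf.1.integrable_of_hasCompactSupport hf.2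
  have hft : Integrable (fun x : EuclideanSpace ℝ (Fin d) => conj (f (-x))) := by
    have h1 : Continuous (fun x : EuclideanSpace ℝ (Fin d) => conj (f (-x))) :=
      Complex.continuous_conj.comp (hf.1.comp continuous_neg)
    have h2 : Integrable (fun x : EuclideanSpace ℝ (Fin d) => f (-x)) := hfi.comp_neg
    refine h2.norm.mono' h1.aestronglyMeasurable ?_
    filter_upwards with x
    rw [RCLike.norm_conj]
  set F := MeasureTheory.convolution f (fun x => conj (f (-x))) (ContinuousLinearMap.mul ℂ ℂ)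
        (volume : Measure (EuclideanSpace ℝ (Fin d))) with hF
  have hFi : Integrable F := hfi.integrable_convolution (ContinuousLinearMap.mul ℂ ℂ) hft
  have hFf : ∀ y, 𝓕 F y = ((‖𝓕 f y‖ ^ 2 : ℝ) : ℂ) := by
    intro y
    rw [hF, Real.fourier_mul_convolution_eq hfi hft, fourier_conj_reflect, Complex.mul_conj,
      Complex.normSq_eq_norm_sq]
  have hbdd : ∃ C, ∀ y, ‖𝓕⁻ f y‖ ≤ C := by
    refine ⟨∫ x, ‖f x‖, fun y => ?_⟩
    rw [fourierInv_norm, Real.fourier_eq']
    refine (norm_integral_le_integral_norm _).trans (le_of_eq ?_)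
    congr 1
    funext x
    rw [norm_smul, Complex.norm_exp_ofReal_mul_I, one_mul]
  have hcont : Continuous (𝓕⁻ f) := by
    have h1 : 𝓕⁻ f = fun y => 𝓕 f (-y) := by
      funext y
      exact fourierInv_norm f y
    rw [h1]
    have h2 : Continuous (𝓕 f) :=
      VectorFourier.fourierIntegral_continuous Real.continuous_fourierChar
        (by exact continuous_inner) hfi
    exact h2.comp continuous_neg
  constructor
  · obtain ⟨C, hC⟩ := hbdd
    unfold ComplexRadon.MemL2 muGHat
    simp only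
    have h1 : Integrable (fun y : EuclideanSpace ℝ (Fin d) => (ε : ℂ) * gau d t y) :=
      (integrable_gau t).const_mul _
    apply h1.bdd_mul (c := C ^ 2)
    · apply Continuous.aestronglyMeasurable
      fun_prop
    · filter_upwards with y
      rw [Complex.norm_real, Real.norm_eq_abs, abs_of_nonneg (by positivity)]
      exact pow_le_pow_left₀ (norm_nonneg _) (hC y) 2
  · unfold ComplexRadon.eval muG muGHat
    simp only
    have h1 : ∫ x, F x * 𝓕 (gau d t) x = ∫ y, 𝓕 F y * gau d t y := by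
      have := VectorFourier.integral_fourierIntegral_smul_eq_flip
        (L := innerₗ (EuclideanSpace ℝ (Fin d))) (μ := volume) (ν := volume)
        Real.continuous_fourierChar (by exact continuous_inner) hFi
        (integrable_gau (d := d) t)
      simp only [flip_innerₗ, smul_eq_mul] at this
      exact this.symm
    have h2 : ∫ y, 𝓕 F y * gau d t y =
        ∫ y, ((‖𝓕⁻ f y‖ ^ 2 : ℝ) : ℂ) * gau d t y := by
      rw [← integral_neg_eq_self (fun y => 𝓕 F y * gau d t y)]
      congr 1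
      funext y
      rw [hFf, gau_neg, fourierInv_norm]
    calc ∫ x, F x * ((ε : ℂ) * 𝓕 (gau d t) x) = (ε : ℂ) * ∫ x, F x * 𝓕 (gau d t) x := by
          rw [← integral_const_mul]
          congr 1
          funext x
          ring
      _ = (ε : ℂ) * ∫ y, ((‖𝓕⁻ f y‖ ^ 2 : ℝ) : ℂ) * gau d t y := by rw [h1, h2]
      _ = _ := by
          rw [← integral_const_mul]
          congr 1
          funext x
          ring

lemma normK_le (hd : 1 ≤ d) (K : Set (EuclideanSpace ℝ (Fin d))) (ε t : ℝ) (hε : 0 ≤ ε)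
    (ht : 1 ≤ t) :
    normK K (muG d ε t) ≤ ENNReal.ofReal (ε / Real.sqrt t) * volume K := by
  unfold normK ComplexRadon.variation muG
  simp only
  apply iSup_le
  intro x
  calc ∫⁻ y in x +ᵥ K, ‖(ε : ℂ) * 𝓕 (gau d t) y‖ₑ
      ≤ ∫⁻ _y in x +ᵥ K, ENNReal.ofReal (ε / Real.sqrt t) := by
        apply lintegral_mono
        intro y
        show ‖(ε : ℂ) * 𝓕 (gau d t) y‖ₑ ≤ ENNReal.ofReal (ε / Real.sqrt t)
        rw [← ofReal_norm]
        apply ENNReal.ofReal_le_ofReal
        rw [norm_mul, Complex.norm_real, Real.norm_eq_abs, abs_of_nonneg hε, div_eq_mul_one_div]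
        exact mul_le_mul_of_nonneg_left (norm_fourier_gau_le hd t ht y) hε
    _ = ENNReal.ofReal (ε / Real.sqrt t) * volume (x +ᵥ K) := by
        rw [setLIntegral_const]
    _ = ENNReal.ofReal (ε / Real.sqrt t) * volume K := by
        rw [measure_vadd]

/-! ### The tent function and the functionals -/

/-- The tent `max 0 (1 - |y|)`. -/
def tent (y : EuclideanSpace ℝ (Fin d)) : ℝ := max 0 (1 - ‖y‖)

lemma continuous_tent : Continuous (tent (d := d)) := by
  unfold tent
  fun_prop

lemma tent_nonneg (y : EuclideanSpace ℝ (Fin d)) : 0 ≤ tent y := le_max_left _ _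

lemma tent_zero_of (y : EuclideanSpace ℝ (Fin d)) (hy : 1 < ‖y‖) : tent y = 0 :=
  max_eq_left (by linarith)

lemma tent_compact {f : EuclideanSpace ℝ (Fin d) → ℂ} :
    HasCompactSupport (fun y => (tent y : ℂ) * f y) := by
  apply HasCompactSupport.intro (isCompact_closedBall (0 : EuclideanSpace ℝ (Fin d)) 1)
  intro x hx
  rw [mem_closedBall_zero_iff, not_le] at hx
  simp [tent_zero_of x hx]

lemma integrable_tent_gau : Integrable (fun y : EuclideanSpace ℝ (Fin d) =>
    tent y * Real.exp (-π * ‖y‖ ^ 2)) := by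
  apply Continuous.integrable_of_hasCompactSupport
  · exact continuous_tent.mul (by fun_prop)
  · apply HasCompactSupport.intro (isCompact_closedBall (0 : EuclideanSpace ℝ (Fin d)) 1)
    intro x hx
    rw [mem_closedBall_zero_iff, not_le] at hx
    simp [tent_zero_of x hx]

/-- The mass `∫ tent(y) e^{-π|y|²} dy`. -/
def mass (d : ℕ) : ℝ := ∫ y : EuclideanSpace ℝ (Fin d), tent y * Real.exp (-π * ‖y‖ ^ 2)

lemma mass_pos : 0 < mass d := by
  unfold mass
  rw [integral_pos_iff_support_of_nonneg]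
  · apply IsOpen.measure_pos
    · apply isOpen_ne_fun (continuous_tent.mul (by fun_prop)) continuous_const
    · refine ⟨0, ?_⟩
      simp [tent]
  · intro y
    exact mul_nonneg (tent_nonneg y) (Real.exp_pos _).le
  · exact integrable_tent_gau

lemma integrable_test (ε t : ℝ) (f : EuclideanSpace ℝ (Fin d) →ᵇ ℂ) :
    Integrable (fun y => ((tent y : ℂ) * f y) * ((ε : ℂ) * gau d t y)) := by
  apply Continuous.integrable_of_hasCompactSupport
  · have h1 := continuous_tent (d := d)
    have h2 := continuous_gau (d := d) t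
    have h3 := f.continuous
    fun_prop
  · exact (tent_compact (f := f)).mul_right

lemma test_bound (ε t : ℝ) (hε : 0 ≤ ε) (f : EuclideanSpace ℝ (Fin d) →ᵇ ℂ) :
    ‖∫ y, ((tent y : ℂ) * f y) * ((ε : ℂ) * gau d t y)‖ ≤ (ε * mass d) * ‖f‖ := by
  have h1 : (ε * mass d) * ‖f‖ =
      ∫ y : EuclideanSpace ℝ (Fin d), (tent y * Real.exp (-π * ‖y‖ ^ 2)) * (ε * ‖f‖) := by
    rw [integral_mul_const]
    unfold mass
    ring
  rw [h1]
  apply norm_integral_le_of_norm_le (integrable_tent_gau.mul_const _)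
  filter_upwards with y
  rw [norm_mul, norm_mul, norm_mul, Complex.norm_real, Complex.norm_real, norm_gau,
    Real.norm_eq_abs, Real.norm_eq_abs, abs_of_nonneg (tent_nonneg y), abs_of_nonneg hε]
  have h2 := f.norm_coe_le_norm y
  have h3 := tent_nonneg y
  have h4 := (Real.exp_pos (-π * ‖y‖ ^ 2)).le
  calc tent y * ‖f y‖ * (ε * Real.exp (-π * ‖y‖ ^ 2))
      = (tent y * Real.exp (-π * ‖y‖ ^ 2) * ε) * ‖f y‖ := by ring
    _ ≤ (tent y * Real.exp (-π * ‖y‖ ^ 2) * ε) * ‖f‖ := by gcongr
    _ = _ := by ring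

/-- The functional `f ↦ ∫ tent f ε g_t` on bounded continuous functions. -/
def functional (d : ℕ) (ε t : ℝ) (hε : 0 ≤ ε) :
    (EuclideanSpace ℝ (Fin d) →ᵇ ℂ) →L[ℂ] ℂ :=
  LinearMap.mkContinuous
    { toFun := fun f => ∫ y, ((tent y : ℂ) * f y) * ((ε : ℂ) * gau d t y)
      map_add' := by
        intro f g
        rw [← integral_add (integrable_test ε t f) (integrable_test ε t g)]
        congr 1
        funext y
        simp only [BoundedContinuousFunction.coe_add, Pi.add_apply]
        ring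
      map_smul' := by
        intro c f
        simp only [RingHom.id_apply, smul_eq_mul]
        rw [← integral_const_mul]
        congr 1
        funext y
        simp only [BoundedContinuousFunction.coe_smul, smul_eq_mul]
        ring }
    (ε * mass d) (fun f => test_bound ε t hε f)

lemma functional_apply (ε t : ℝ) (hε : 0 ≤ ε) (f : EuclideanSpace ℝ (Fin d) →ᵇ ℂ) :
    functional d ε t hε f = (muGHat d ε t).eval (fun y => (tent y : ℂ) * f y) := rfl

/-- The counter-phase, a bounded continuous function of norm at most one. -/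
def phase (d : ℕ) (t : ℝ) : EuclideanSpace ℝ (Fin d) →ᵇ ℂ :=
  BoundedContinuousFunction.ofNormedAddCommGroup
    (fun y => Complex.exp (((π * t * ‖y‖ ^ 2 : ℝ) : ℂ) * Complex.I)) (by fun_prop) 1
    (fun y => by rw [Complex.norm_exp_ofReal_mul_I])

lemma norm_phase_le (t : ℝ) : ‖phase d t‖ ≤ 1 :=
  BoundedContinuousFunction.norm_ofNormedAddCommGroup_le _ zero_le_one _

lemma functional_phase (ε t : ℝ) (hε : 0 ≤ ε) :
    functional d ε t hε (phase d t) = ((ε * mass d : ℝ) : ℂ) := by
  rw [functional_apply]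
  unfold ComplexRadon.eval muGHat mass
  simp only
  rw [Complex.ofReal_mul, ← integral_complex_ofReal, ← integral_const_mul]
  congr 1
  funext y
  have h1 : phase d t y * gau d t y = ((Real.exp (-π * ‖y‖ ^ 2) : ℝ) : ℂ) := by
    show Complex.exp (((π * t * ‖y‖ ^ 2 : ℝ) : ℂ) * Complex.I) * gau d t y = _
    unfold gau
    rw [← Complex.exp_add, Complex.ofReal_exp]
    congr 1
    push_cast
    ring
  push_cast at h1 ⊢
  rw [← h1]
  ring

/-- **Main theorem.** For every `d ≥ 1` and every compact `K ⊆ ℝᵈ` (in particular those with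
nonempty interior) there is a sequence of translation bounded Fourier transformable measures `μ_n`
with `‖μ_n‖_K → 0` whose Fourier transforms do not converge vaguely to `0`. -/
theorem result (d : ℕ) (hd : 1 ≤ d) (K : Set (EuclideanSpace ℝ (Fin d))) (hK : IsCompact K) :
    ∃ μ μ' : ℕ → ComplexRadon (EuclideanSpace ℝ (Fin d)),
      (∀ n, IsFourierTransform (μ n) (μ' n)) ∧ (∀ n, normK K (μ n) < ⊤) ∧
        Tendsto (fun n => normK K (μ n)) atTop (𝓝 0) ∧
        ∃ f : EuclideanSpace ℝ (Fin d) → ℂ, IsCc f ∧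
          ¬ Tendsto (fun n => (μ' n).eval f) atTop (𝓝 0) := by
  have hKvol : volume K < ⊤ := hK.measure_lt_top
  have hsq : ∀ n : ℕ, Real.sqrt (((n : ℝ) + 1) ^ 4) = ((n : ℝ) + 1) ^ 2 := by
    intro n
    rw [show ((n : ℝ) + 1) ^ 4 = (((n : ℝ) + 1) ^ 2) ^ 2 by ring, Real.sqrt_sq (by positivity)]
  have hbound : ∀ n : ℕ, normK K (muG d ((n : ℝ) + 1) (((n : ℝ) + 1) ^ 4)) ≤
      ENNReal.ofReal (1 / ((n : ℝ) + 1)) * volume K := by
    intro n
    have h1 : (1 : ℝ) ≤ ((n : ℝ) + 1) ^ 4 := by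
      apply one_le_pow₀
      have : (0 : ℝ) ≤ n := Nat.cast_nonneg n
      linarith
    refine (normK_le hd K ((n : ℝ) + 1) (((n : ℝ) + 1) ^ 4) (by positivity) h1).trans ?_
    rw [hsq]
    apply le_of_eq
    congr 2
    field_simp
  refine ⟨fun n => muG d ((n : ℝ) + 1) (((n : ℝ) + 1) ^ 4),
    fun n => muGHat d ((n : ℝ) + 1) (((n : ℝ) + 1) ^ 4), fun n => isFT _ _, ?_, ?_, ?_⟩
  · intro n
    exact (hbound n).trans_lt (ENNReal.mul_lt_top ENNReal.ofReal_lt_top hKvol)
  · have hlim : Tendsto (fun n : ℕ => ENNReal.ofReal (1 / ((n : ℝ) + 1)) * volume K) atTop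
        (𝓝 0) := by
      have h1 : Tendsto (fun n : ℕ => ENNReal.ofReal (1 / ((n : ℝ) + 1))) atTop (𝓝 0) := by
        have := ENNReal.tendsto_ofReal (tendsto_one_div_add_atTop_nhds_zero_nat (𝕜 := ℝ))
        simpa using this
      have h2 := ENNReal.Tendsto.mul_const h1 (Or.inr hKvol.ne)
      simpa using h2
    exact tendsto_of_tendsto_of_tendsto_of_le_of_le tendsto_const_nhds hlim
      (fun _ => zero_le) hbound
  · by_contra hcon
    push Not at hcon
    -- Banach-Steinhaus
    have hpt : ∀ f : EuclideanSpace ℝ (Fin d) →ᵇ ℂ, ∃ C, ∀ n : ℕ,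
        ‖functional d ((n : ℝ) + 1) (((n : ℝ) + 1) ^ 4) (by positivity) f‖ ≤ C := by
      intro f
      have h1 := hcon (fun y => (tent y : ℂ) * f y)
        ⟨by have h1 := continuous_tent (d := d); have h3 := f.continuous; fun_prop, tent_compact⟩
      have h2 : Tendsto (fun n : ℕ =>
          functional d ((n : ℝ) + 1) (((n : ℝ) + 1) ^ 4) (by positivity) f) atTop (𝓝 0) := h1
      obtain ⟨C, hC⟩ := (Metric.isBounded_range_of_tendsto _ h2).exists_norm_le
      exact ⟨C, fun n => hC _ ⟨n, rfl⟩⟩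
    obtain ⟨C, hC⟩ := banach_steinhaus hpt
    obtain ⟨n, hn⟩ := exists_nat_gt (C / mass d)
    have h1 := (functional d ((n : ℝ) + 1) (((n : ℝ) + 1) ^ 4) (by positivity)).le_opNorm
      (phase d (((n : ℝ) + 1) ^ 4))
    rw [functional_phase, Complex.norm_real, Real.norm_eq_abs,
      abs_of_nonneg (mul_nonneg (by positivity) mass_pos.le)] at h1
    have h2 := hC n
    have h3 := norm_phase_le (d := d) (((n : ℝ) + 1) ^ 4)
    have h4 := norm_nonneg (functional d ((n : ℝ) + 1) (((n : ℝ) + 1) ^ 4) (by positivity))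
    have h5 : ((n : ℝ) + 1) * mass d ≤ C := by
      calc ((n : ℝ) + 1) * mass d ≤ _ := h1
        _ ≤ ‖functional d ((n : ℝ) + 1) (((n : ℝ) + 1) ^ 4) (by positivity)‖ * 1 := by gcongr
        _ ≤ C := by rw [mul_one]; exact h2
    rw [div_lt_iff₀ mass_pos] at hn
    have := mass_pos (d := d)
    nlinarith

end Pool.Agent.Results.MP_148afe_an.NotVaguelyContinuous
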